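import Pool.Agent.P.MP_3bc45c_nt.FF.Odd

/-!
Long gaps between irreducible polynomials over a finite field of odd characteristic `p`: the short
interval of the `q ^ (2 p k + 1)` polynomials `f + a` with `deg a ≤ 2 p k` contains no irreducible
polynomial, for a monic `f` of degree at most `p (2 p k + 5) q ^ (2 (p - 1) k)`.
-/

open Polynomial

theorem Pool.Agent.P.MP_3bc45c_nt.Extra.GapOddChar.result (K : Type*) [Field K] [Fintype K]
    (p : ℕ) [CharP K p] (hp : p ≠ 2) (k : ℕ) (hk : 1 ≤ k) :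
    ∃ f : K[X], f.Monic ∧ 2 * p * k < f.natDegree ∧
      f.natDegree ≤ p * (2 * p * k + 5) * Fintype.card K ^ (2 * (p - 1) * k) ∧
      ∀ a : K[X], a.degree ≤ (2 * p * k : ℕ) → ¬ Irreducible (f + a) :=
  Pool.Agent.P.MP_3bc45c_nt.FF.gap_odd p hp k hk
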