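import Pool.Agent.P.MP_3bc45c_nt.APAssemble

/-!
For every large modulus `k` some reduced residue class has no prime up to
`(1/2 - ε) φ(k) log k log log k`.
-/

open Finset Real Filter

namespace Pool.Agent.P.MP_3bc45c_nt.Extra.LeastPrimeAP

open Pool.Agent.P.MP_3bc45c_nt

theorem result : ∀ ε : ℝ, 0 < ε → ∃ k₀ : ℕ, ∀ k : ℕ, k₀ ≤ k →
    ∃ a : ℕ, 0 < a ∧ a < k ∧ Nat.Coprime a k ∧ ∀ p : ℕ, p.Prime → p ≡ a [MOD k] →
      (1 / 2 - ε) * ((Nat.totient k : ℝ) * log k * log (log k)) < p := by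
  intro ε hε
  obtain ⟨η, hη, hη1, hηε⟩ : ∃ η : ℝ, 0 < η ∧ η ≤ 1 / 80 ∧ 20 * η ≤ ε :=
    ⟨min (1 / 80) (ε / 20), by positivity, min_le_left _ _,
      by linarith [min_le_right (1 / 80) (ε / 20)]⟩
  obtain ⟨C, hC0, hC⟩ := mertens_one
  obtain ⟨c, hc0, hc⟩ := V_lower
  have t1 : Tendsto (fun K : ℕ => log (K : ℝ)) atTop atTop :=
    tendsto_log_atTop.comp tendsto_natCast_atTop_atTop
  have t2 : Tendsto (fun K : ℕ => log (log (K : ℝ))) atTop atTop := tendsto_log_atTop.comp t1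
  rw [← eventually_atTop]
  filter_upwards [assemble hη (by linarith), t1.eventually_ge_atTop (16 / η),
    t1.eventually_ge_atTop (2 / (η * c)), t1.eventually (ev_pow_log 8 1),
    t2.eventually_ge_atTop 4, t2.eventually_ge_atTop (2 * log (8 / η) / η),
    t2.eventually_ge_atTop ((2 * C + 1) * 4 / η), t2.eventually (ev_pow_log (2 / η) 1),
    eventually_gt_atTop 0] with K hA hZ hZc hZL hL4 hLK hLC hL2 hK0
  obtain ⟨Z, hZdef⟩ : ∃ Z, log (K : ℝ) = Z := ⟨_, rfl⟩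
  simp only [hZdef, pow_one] at hA hZ hZc hZL hL4 hLK hLC hL2 ⊢
  obtain ⟨L, hLdef⟩ : ∃ L, log Z = L := ⟨_, rfl⟩
  simp only [hLdef] at hA hZL hL4 hLK hLC hL2 ⊢
  have h4 : 1280 ≤ 16 / η := by rw [le_div_iff₀ hη]; linarith
  have hZ0 : 0 < Z := by linarith
  have hL0 : 0 < L := by linarith
  have hηZ : 16 ≤ η * Z := by rwa [div_le_iff₀' hη] at hZ
  have hηZ' : η * Z ≤ Z / 80 := by linarith [mul_le_mul_of_nonneg_right hη1 hZ0.le]
  have hZL1 : 4 * Z ≤ Z * L := by nlinarith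
  obtain ⟨y, hy1, hy2⟩ : ∃ y : ℕ, Z * L ≤ y ∧ (y : ℝ) ≤ Z * L + 1 :=
    ⟨⌈Z * L⌉₊, Nat.le_ceil _, (Nat.ceil_lt_add_one (by positivity)).le⟩
  have hx1 : η * Z / 8 ≤ ⌊η * Z / 4⌋₊ := by linarith [Nat.lt_floor_add_one (η * Z / 4)]
  have hx2 : (⌊η * Z / 4⌋₊ : ℝ) ≤ η * Z / 4 := Nat.floor_le (by positivity)
  obtain ⟨x, hxdef⟩ : ∃ x, ⌊η * Z / 4⌋₊ = x := ⟨_, rfl⟩
  simp only [hxdef] at hA hx1 hx2
  have hx0 : (2 : ℝ) ≤ x := by linarith
  have hlx : L - log (8 / η) ≤ log x := by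
    refine le_trans (le_of_eq ?_) (log_le_log (by positivity) hx1)
    rw [← hLdef, ← log_div hZ0.ne' (by positivity)]
    congr 1
    field_simp
  have hxy : x ≤ y := by
    have : (x : ℝ) ≤ y := by linarith
    exact_mod_cast this
  have hly : log y ≤ (1 + η) * L := by
    have h1 : (y : ℝ) ≤ Z * L ^ 2 := by nlinarith
    have h2 := log_le_log (by linarith) h1
    rw [log_mul hZ0.ne' (by positivity), log_pow, hLdef] at h2
    rw [div_mul_eq_mul_div, div_le_iff₀' hη] at hL2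
    push_cast at h2
    linarith
  have hV : V x ≤ V y * ((1 + η) * (1 + η) * (1 + η)) := by
    refine (V_le_mul hC (by exact_mod_cast hx0) hxy).trans
      (mul_le_mul_of_nonneg_left ?_ (V_pos y).le)
    refine num_ratio hη (by linarith) hL0 (by linarith) hC0 hly ?_
      (by linarith [log_le_sub_one_of_pos (show (0 : ℝ) < x by linarith)]) ?_
    · refine le_trans ?_ hlx
      rw [div_le_iff₀' hη] at hLK
      rw [div_le_iff₀ (by linarith)]
      nlinarith [mul_pos hη hL0]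
    · rw [div_le_iff₀' hη] at hLC
      nlinarith
  have hVy : 1 ≤ η * (Z * L * V y) := by
    have h1 := hc y (by exact_mod_cast (by linarith : (2 : ℝ) ≤ y))
    have h2 : V y * log y ≤ V y * (2 * L) :=
      mul_le_mul_of_nonneg_left (by nlinarith) (V_pos y).le
    rw [div_le_iff₀ (by positivity)] at hZc
    nlinarith [mul_le_mul_of_nonneg_left (h1.trans h2) (mul_pos hη hZ0).le]
  obtain ⟨ρ, hρ⟩ : ∃ ρ, ∏ r ∈ K.primeFactors, (1 - 1 / (r : ℝ)) = ρ := ⟨_, rfl⟩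
  have hρ0 : 0 < ρ := hρ ▸ prod_pos fun r hr => one_sub_inv_pos (Nat.prime_of_mem_primeFactors hr)
  have hρ1 : ρ ≤ 1 := hρ ▸ prod_le_one
    (fun r hr => (one_sub_inv_pos (Nat.prime_of_mem_primeFactors hr)).le) fun r _ => by
      have : (0 : ℝ) ≤ 1 / (r : ℝ) := by positivity
      linarith
  have hc1 : 0 < 1 / 2 - 20 * η := by linarith
  obtain ⟨J, hJ1, hJ2⟩ : ∃ J : ℕ, (1 / 2 - 20 * η) * ρ * (Z * L) ≤ J ∧
      (J : ℝ) ≤ (1 / 2 - 20 * η) * ρ * (Z * L) + 1 :=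
    ⟨⌈_⌉₊, Nat.le_ceil _, (Nat.ceil_lt_add_one (by positivity)).le⟩
  have hJy : J ≤ y := by
    have h1 : (1 / 2 - 20 * η) * ρ ≤ 1 / 2 := by nlinarith
    have h2 := mul_le_mul_of_nonneg_right h1 (show 0 ≤ Z * L by positivity)
    have : (J : ℝ) ≤ y := by linarith
    exact_mod_cast this
  obtain ⟨cl, hcl⟩ := greedy ((primesIoc 0 x).filter (fun p => ¬ p ∣ K))
    (fun p hp => (mem_primesIoc.1 (mem_filter.1 hp).1).1) (range J)
  have hρV := rho_mul_le K x hK0.ne'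
  rw [hρ] at hρV
  obtain ⟨a, ha0, haK, hco, hp⟩ := hA J y (by linarith) (by nlinarith) hJy cl (hcl.trans (by
    set Q := ∏ p ∈ (primesIoc 0 x).filter (fun p => ¬ p ∣ K), (1 - 1 / (p : ℝ)) with hQ
    have hQ0 : ∀ p ∈ (primesIoc 0 x).filter (fun p => ¬ p ∣ K), 0 ≤ 1 - 1 / (p : ℝ) :=
      fun p hp => (one_sub_inv_pos (mem_primesIoc.1 (mem_filter.1 hp).1).2.2).le
    have hQ1 : Q ≤ 1 := prod_le_one hQ0 fun r _ => by
      have : (0 : ℝ) ≤ 1 / (r : ℝ) := by positivity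
      linarith
    have hX : 0 ≤ Z * L * V y := mul_nonneg (by positivity) (V_pos y).le
    rw [card_range]
    calc (J : ℝ) * Q ≤ ((1 / 2 - 20 * η) * ρ * (Z * L) + 1) * Q :=
          mul_le_mul_of_nonneg_right hJ2 (prod_nonneg hQ0)
      _ = (1 / 2 - 20 * η) * (Z * L) * (ρ * Q) + Q := by ring
      _ ≤ (1 / 2 - 20 * η) * (Z * L) * (V y * ((1 + η) * (1 + η) * (1 + η)))
            + η * (Z * L * V y) :=
          add_le_add (mul_le_mul_of_nonneg_left (hρV.trans hV) (by positivity)) (hQ1.trans hVy)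
      _ = ((1 / 2 - 20 * η) * (1 + η) ^ 3 + η) * (Z * L * V y) := by ring
      _ ≤ _ := by
          refine mul_le_mul_of_nonneg_right ?_ hX
          rw [le_div_iff₀ (by linarith)]
          have h1 : (1 + η) ^ 2 ≤ 1 + 2.02 * η := by nlinarith
          have h2 : (1 + η) ^ 3 * (1 + η) ≤ 1 + 4.1 * η := by
            have : (1 + η) ^ 3 * (1 + η) = (1 + η) ^ 2 * (1 + η) ^ 2 := by ring
            rw [this]
            nlinarith [mul_le_mul h1 h1 (by positivity) (by positivity)]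
          nlinarith [mul_le_mul_of_nonneg_left h2 hc1.le, mul_nonneg hη.le (sq_nonneg η)]))
  refine ⟨a, ha0, haK, hco, fun p hpp hpa => ?_⟩
  have h1 : (J : ℝ) * K < p := by exact_mod_cast hp p hpp hpa
  have hK : (0 : ℝ) < K := by exact_mod_cast hK0
  rw [totient_eq, hρ]
  calc (1 / 2 - ε) * (K * ρ * Z * L) ≤ (1 / 2 - 20 * η) * (K * ρ * Z * L) :=
        mul_le_mul_of_nonneg_right (by linarith) (by positivity)
    _ = (1 / 2 - 20 * η) * ρ * (Z * L) * K := by ring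
    _ ≤ J * K := mul_le_mul_of_nonneg_right hJ1 hK.le
    _ < p := h1

end Pool.Agent.P.MP_3bc45c_nt.Extra.LeastPrimeAP
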