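import Pool.Agent.P.MP_3bc45c_nt.APRankin

/-!
For every large modulus `k` with few prime factors some reduced residue class has no prime up to
`(1/4 - ε) φ(k) log k (log₂ k)^2 log₄ k / (log₃ k)^2`.
-/

open Finset Real Filter

namespace Pool.Agent.P.MP_3bc45c_nt.Extra.LeastPrimeFew

open Pool.Agent.P.MP_3bc45c_nt

theorem num_c {η : ℝ} (hη : 0 < η) (hη1 : η ≤ 1 / 100) :
    (2 + 6 * η) * ((1 + η) * (1 + 3 * η) * (1 + η)) * (1 / 4 - 19 * η)
      ≤ (1 / 2 - 10 * η) * (1 - η) ^ 2 / (1 + η) := by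
  rw [le_div_iff₀ (by linarith)]
  have h1 : (1 + η) * (1 + 3 * η) ≤ 1 + 4.1 * η := by nlinarith
  have h2 : (1 + η) * (1 + η) ≤ 1 + 2.1 * η := by nlinarith
  have h3 : (1 + η) * (1 + 3 * η) * ((1 + η) * (1 + η)) ≤ 1 + 6.5 * η := by
    nlinarith [mul_le_mul h1 h2 (by positivity) (by positivity)]
  have h4 : (2 + 6 * η) * (1 / 4 - 19 * η) ≤ 1 / 2 - 36 * η := by nlinarith
  have h5 : 0 ≤ (2 + 6 * η) * (1 / 4 - 19 * η) := mul_nonneg (by linarith) (by linarith)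
  nlinarith [mul_le_mul h4 h3 (by positivity) (by linarith), mul_nonneg hη.le (sq_nonneg η)]

theorem result : ∀ ε : ℝ, 0 < ε → ∃ k₀ : ℕ, ∀ k : ℕ, k₀ ≤ k →
    (k.primeFactors.card : ℝ) ≤
      exp ((1 - ε) * (log (log k) * log (log (log (log k))) / log (log (log k)))) →
    ∃ a : ℕ, 0 < a ∧ a < k ∧ Nat.Coprime a k ∧ ∀ p : ℕ, p.Prime → p ≡ a [MOD k] →
      (1 / 4 - ε) * ((Nat.totient k : ℝ) * log k * log (log k) ^ 2 * log (log (log (log k)))
        / log (log (log k)) ^ 2) < p := by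
  intro ε hε
  obtain ⟨η, hη, hη1, hηε⟩ : ∃ η : ℝ, 0 < η ∧ η ≤ 1 / 100 ∧ 20 * η ≤ ε :=
    ⟨min (1 / 100) (ε / 20), by positivity, min_le_left _ _,
      by linarith [min_le_right (1 / 100) (ε / 20)]⟩
  obtain ⟨c, hc0, hc⟩ := V_lower
  have t1 : Tendsto (fun K : ℕ => log (K : ℝ)) atTop atTop :=
    tendsto_log_atTop.comp tendsto_natCast_atTop_atTop
  have t2 : Tendsto (fun K : ℕ => log (log (K : ℝ))) atTop atTop := tendsto_log_atTop.comp t1
  have t3 : Tendsto (fun K : ℕ => log (log (log (K : ℝ)))) atTop atTop :=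
    tendsto_log_atTop.comp t2
  have t4 : Tendsto (fun K : ℕ => log (log (log (log (K : ℝ))))) atTop atTop :=
    tendsto_log_atTop.comp t3
  rw [← eventually_atTop]
  filter_upwards [assemble hη (by linarith), t1.eventually (rankin_core hη (by linarith)),
    omega_le (δ := η / 16) (by positivity), t1.eventually_ge_atTop (16 / η),
    t1.eventually (ev_pow_log 4 2), t2.eventually_ge_atTop 4,
    t2.eventually (ev_pow_log (2 / η) 2), t2.eventually (ev_pow_log (2 / (η * c)) 2),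
    t3.eventually_ge_atTop 1, t3.eventually_ge_atTop (log (1 / η)), t4.eventually_ge_atTop 1,
    eventually_gt_atTop 0] with K hA hR hω hZ hZL hL4 hL2 hLc hL₂1 hL₂η hL₃1 hK0 hfew
  have hL₃₂ : log (log (log (log (K : ℝ)))) ≤ log (log (log (K : ℝ))) := by
    linarith [log_le_sub_one_of_pos (show 0 < log (log (log (K : ℝ))) by linarith)]
  have hLL : exp (log (log (log (K : ℝ)))) = log (log (K : ℝ)) := exp_log (by linarith)
  obtain ⟨L₃, hL₃def⟩ : ∃ L₃, log (log (log (log (K : ℝ)))) = L₃ := ⟨_, rfl⟩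
  simp only [hL₃def] at hR hL₃1 hL₃₂ hfew ⊢
  obtain ⟨L₂, hL₂def⟩ : ∃ L₂, log (log (log (K : ℝ))) = L₂ := ⟨_, rfl⟩
  simp only [hL₂def] at hR hL2 hLc hL₂1 hL₂η hL₃₂ hfew hLL ⊢
  obtain ⟨Z, hZdef⟩ : ∃ Z, log (K : ℝ) = Z := ⟨_, rfl⟩
  simp only [hZdef] at hA hR hω hZ hZL hL4 hL2 hLc hfew hLL ⊢
  obtain ⟨L, hLdef⟩ : ∃ L, log Z = L := ⟨_, rfl⟩
  simp only [hLdef] at hA hR hZL hL4 hL2 hLc hfew hLL ⊢
  have h4 : 1600 ≤ 16 / η := by rw [le_div_iff₀ hη]; linarith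
  have hZ0 : 0 < Z := by linarith
  have hL0 : 0 < L := by linarith
  have hL₂0 : 0 < L₂ := by linarith
  have hL₃0 : 0 < L₃ := by linarith
  have hηZ : 16 ≤ η * Z := by rwa [div_le_iff₀' hη] at hZ
  have hηZ' : η * Z ≤ Z / 100 := by linarith [mul_le_mul_of_nonneg_right hη1 hZ0.le]
  have hx1 : η * Z / 8 ≤ ⌊η * Z / 4⌋₊ := by linarith [Nat.lt_floor_add_one (η * Z / 4)]
  have hx2 : (⌊η * Z / 4⌋₊ : ℝ) ≤ η * Z / 4 := Nat.floor_le (by positivity)
  obtain ⟨x, hxdef⟩ : ∃ x, ⌊η * Z / 4⌋₊ = x := ⟨_, rfl⟩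
  simp only [hxdef] at hA hR hx1 hx2
  have hx0 : (2 : ℝ) ≤ x := by linarith
  have hρl := rho_lower (K := K) (x := x) hK0.ne' (by exact_mod_cast (by linarith : (0 : ℝ) < x))
  obtain ⟨ρ, hρ⟩ : ∃ ρ, ∏ r ∈ K.primeFactors, (1 - 1 / (r : ℝ)) = ρ := ⟨_, rfl⟩
  have hρ0 : 0 < ρ := hρ ▸ prod_pos fun r hr => one_sub_inv_pos (Nat.prime_of_mem_primeFactors hr)
  have hρ1 : ρ ≤ 1 := hρ ▸ prod_le_one
    (fun r hr => (one_sub_inv_pos (Nat.prime_of_mem_primeFactors hr)).le) fun r _ => by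
      have : (0 : ℝ) ≤ 1 / (r : ℝ) := by positivity
      linarith
  rw [hρ] at hρl
  have hρL : c ≤ 2 * ρ * L := by
    have h1 := hc x (by exact_mod_cast hx0)
    have h2 : log x ≤ L := hLdef ▸ log_le_log (by linarith) (by linarith)
    have h3 : (K.primeFactors.card : ℝ) / x ≤ 1 / 2 := by
      rw [div_le_iff₀ (by linarith)]; linarith
    have h5 : V x * (1 / 2) ≤ ρ :=
      (mul_le_mul_of_nonneg_left (by linarith) (V_pos x).le).trans hρl
    calc c ≤ V x * L := h1.trans (mul_le_mul_of_nonneg_left h2 (V_pos x).le)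
      _ ≤ _ := mul_le_mul_of_nonneg_right (by linarith) hL0.le
  obtain ⟨F, hF⟩ : ∃ F, F = Z * L ^ 2 * L₃ / L₂ ^ 2 := ⟨_, rfl⟩
  have hF0 : 0 < F := by rw [hF]; positivity
  have hF1 : F ≤ Z * L ^ 2 := by
    rw [hF, mul_div_assoc]
    refine mul_le_of_le_one_right (by positivity) ?_
    rw [div_le_one (by positivity)]
    exact hL₃₂.trans (le_self_pow₀ hL₂1 (by norm_num))
  have hF2 : Z ≤ η * (ρ * F) := by
    rw [div_mul_eq_mul_div, div_le_iff₀ (by positivity)] at hLc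
    rw [hF, ← mul_div_assoc, ← mul_div_assoc, le_div_iff₀ (by positivity)]
    have h1 : L₂ ^ 2 ≤ η * (ρ * L ^ 2) := by
      nlinarith [mul_le_mul_of_nonneg_left hρL (mul_pos hη hL0).le]
    calc Z * L₂ ^ 2 ≤ Z * (η * (ρ * L ^ 2)) * 1 := by
          rw [mul_one]; exact mul_le_mul_of_nonneg_left h1 hZ0.le
      _ ≤ Z * (η * (ρ * L ^ 2)) * L₃ := by gcongr
      _ = _ := by ring
  have hρF : 0 < ρ * F := mul_pos hρ0 hF0
  have hρF1 : ρ * F ≤ Z * L ^ 2 := (mul_le_of_le_one_left hF0.le hρ1).trans hF1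
  have hc1 : 0 < 1 / 4 - 20 * η := by linarith
  obtain ⟨J, hJ1, hJ2⟩ : ∃ J : ℕ, (1 / 4 - 20 * η) * (ρ * F) ≤ J ∧
      (J : ℝ) ≤ (1 / 4 - 19 * η) * (ρ * F) := by
    refine ⟨⌈_⌉₊, Nat.le_ceil _, (Nat.ceil_lt_add_one (by positivity)).le.trans ?_⟩
    linarith
  have hJZ : Z ≤ J := hF2.trans ((mul_le_mul_of_nonneg_right (by linarith) hρF.le).trans hJ1)
  have hJ3 : (J : ℝ) ≤ Z * L ^ 2 :=
    hJ2.trans ((mul_le_of_le_one_left hρF.le (by linarith)).trans hρF1)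
  obtain ⟨z, hzx, hz1, hz2, hz3⟩ := hR J hJZ hJ3
  have hz0 : (0 : ℝ) < z := (exp_pos _).trans_le hz1
  obtain ⟨cl, hcl⟩ := rankin_classes (z := z) (x := x) (by exact_mod_cast hz0) J K hK0.ne'
  rw [hρ, min_eq_left hzx] at hcl
  have hωz : (K.primeFactors.card : ℝ) / z ≤ η * (L₂ / L) := by
    have hT : 0 < L * L₃ / L₂ := by positivity
    have h1 : (1 - 3 * η) * (L * L₃ / L₂) ≤ L / ((1 + 3 * η) * L₂ / L₃) := by
      have : L / ((1 + 3 * η) * L₂ / L₃) = 1 / (1 + 3 * η) * (L * L₃ / L₂) := by field_simp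
      rw [this]
      refine mul_le_mul_of_nonneg_right ?_ hT.le
      rw [le_div_iff₀ (by linarith)]
      nlinarith [sq_nonneg η]
    have h2 : 2 * L₂ ≤ η * (L * L₃ / L₂) := by
      rw [div_mul_eq_mul_div, div_le_iff₀' hη] at hL2
      rw [← mul_div_assoc, le_div_iff₀ hL₂0]
      nlinarith [mul_le_mul_of_nonneg_left hL₃1 (mul_pos hη hL0).le]
    have h3 : exp (-(2 * L₂)) ≤ η * (L₂ / L) := by
      have h5 : exp (-L₂) ≤ η := by
        rw [one_div, log_inv] at hL₂η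
        rw [← exp_log hη]
        exact exp_le_exp.mpr (by linarith)
      have h6 : exp (-L₂) ≤ L₂ / L := by
        rw [exp_neg, hLL, ← one_div]
        exact div_le_div_of_nonneg_right hL₂1 hL0.le
      rw [show -(2 * L₂) = -L₂ + -L₂ by ring, exp_add]
      exact mul_le_mul h5 h6 (exp_pos _).le hη.le
    refine (div_le_div₀ (exp_pos _).le hfew (exp_pos _) hz1).trans (le_trans ?_ h3)
    rw [← exp_sub]
    refine exp_le_exp.mpr ?_
    linarith [mul_le_mul_of_nonneg_right hηε hT.le, mul_pos hη hT]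
  obtain ⟨a, ha0, haK, hco, hp⟩ := hA J J hJZ (by nlinarith) le_rfl cl (by
    refine le_of_mul_le_mul_right (hcl.trans ?_) hρ0
    have hV := V_pos J
    have h1 : ((smoothUpTo J z).card : ℝ) + J * ∑ q ∈ primesIoc x J, 1 / (q : ℝ)
        + J * (K.primeFactors.card / z) ≤ (2 + 6 * η) * (J * (L₂ / L)) := by
      linarith [mul_le_mul_of_nonneg_left hωz (Nat.cast_nonneg J)]
    calc _ ≤ (2 + 6 * η) * (J * (L₂ / L)) *
          (V J * ((1 + η) * ((1 + 3 * η) * L₂ / L₃) * (1 + η))) :=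
          mul_le_mul h1 hz3 (V_pos z).le (by positivity)
      _ ≤ (2 + 6 * η) * ((1 / 4 - 19 * η) * (ρ * F) * (L₂ / L)) *
          (V J * ((1 + η) * ((1 + 3 * η) * L₂ / L₃) * (1 + η))) := by gcongr
      _ = (2 + 6 * η) * ((1 + η) * (1 + 3 * η) * (1 + η)) * (1 / 4 - 19 * η) *
          (Z * L * V J) * ρ := by rw [hF]; field_simp
      _ ≤ _ := by
          have := num_c hη hη1
          gcongr)
  refine ⟨a, ha0, haK, hco, fun p hpp hpa => ?_⟩
  have h1 : (J : ℝ) * K < p := by exact_mod_cast hp p hpp hpa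
  have hK : (0 : ℝ) < K := by exact_mod_cast hK0
  rw [totient_eq, hρ]
  calc (1 / 4 - ε) * (K * ρ * Z * L ^ 2 * L₃ / L₂ ^ 2)
      ≤ (1 / 4 - 20 * η) * (K * ρ * Z * L ^ 2 * L₃ / L₂ ^ 2) :=
        mul_le_mul_of_nonneg_right (by linarith) (by positivity)
    _ = (1 / 4 - 20 * η) * (ρ * F) * K := by rw [hF]; ring
    _ ≤ J * K := mul_le_mul_of_nonneg_right hJ1 hK.le
    _ < p := h1

end Pool.Agent.P.MP_3bc45c_nt.Extra.LeastPrimeFew
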